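import Pool.Agent.VMX.StmtsF

/-!
# VMX squad, row COC (zooming along a simplex of eigenvectors)
-/

set_option autoImplicit false

open Matrix Filter Topology

namespace Pool.Agent.VMX.H38

open Pool.Agent.PFS Pool.Agent.PFJ Pool.Agent.NBT Pool.Agent.VMX

/-- eigenvectors with positive eigenvalues: the sums are moved by a bounded amount -/
theorem eig_bd {n k : ℕ} {C : Set (V n)} (hP : PCone C) (g : GL (Fin n) ℝ)
    (W : Fin (k + 1) → V n) (l : Fin (k + 1) → ℝ) (hW : ∀ i, W i ∈ closure C)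
    (hl : ∀ i, 0 < l i) (he : ∀ i, act g (W i) = l i • W i) :
    ∃ M : ℝ, ∀ r : Fin (k + 1) → ℝ, (∀ i, 0 < r i) →
      M • (∑ i, r i • W i) - act g (∑ i, r i • W i) ∈ closure C ∧
      M • act g (∑ i, r i • W i) - ∑ i, r i • W i ∈ closure C := by
  have hM1 : ∀ i, l i ≤ ∑ j, (l j + (l j)⁻¹) := by
    intro i
    have h1 : l i + (l i)⁻¹ ≤ ∑ j, (l j + (l j)⁻¹) :=
      Finset.single_le_sum (f := fun j => l j + (l j)⁻¹)
        (fun j _ => (add_pos (hl j) (inv_pos.2 (hl j))).le) (Finset.mem_univ i)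
    have h2 : 0 < (l i)⁻¹ := inv_pos.2 (hl i)
    linarith
  have hM2 : ∀ i, (l i)⁻¹ ≤ ∑ j, (l j + (l j)⁻¹) := by
    intro i
    have h1 : l i + (l i)⁻¹ ≤ ∑ j, (l j + (l j)⁻¹) :=
      Finset.single_le_sum (f := fun j => l j + (l j)⁻¹)
        (fun j _ => (add_pos (hl j) (inv_pos.2 (hl j))).le) (Finset.mem_univ i)
    have h2 : 0 < l i := hl i
    linarith
  refine ⟨∑ j, (l j + (l j)⁻¹), fun r hr => ?_⟩
  generalize (∑ j, (l j + (l j)⁻¹)) = M at hM1 hM2
  have ha : act g (∑ i, r i • W i) = ∑ i, (r i * l i) • W i := by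
    rw [CC.act_sum]
    refine Finset.sum_congr rfl fun i _ => ?_
    rw [CC.act_smul, he i, smul_smul]
  constructor
  · have e : M • (∑ i, r i • W i) - act g (∑ i, r i • W i)
        = ∑ i, (r i * (M - l i)) • W i := by
      rw [ha, Finset.smul_sum, ← Finset.sum_sub_distrib]
      refine Finset.sum_congr rfl fun i _ => ?_
      rw [smul_smul, ← sub_smul]
      ring_nf
    rw [e]
    refine hP.cl_sum fun i _ => hP.cl_smul (hW i) ?_
    exact mul_nonneg (hr i).le (sub_nonneg.2 (hM1 i))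
  · have e : M • act g (∑ i, r i • W i) - ∑ i, r i • W i
        = ∑ i, (r i * (M * l i - 1)) • W i := by
      rw [ha, Finset.smul_sum, ← Finset.sum_sub_distrib]
      refine Finset.sum_congr rfl fun i _ => ?_
      rw [smul_smul, ← sub_smul]
      ring_nf
    rw [e]
    refine hP.cl_sum fun i _ => hP.cl_smul (hW i) ?_
    refine mul_nonneg (hr i).le ?_
    have h1 : (l i)⁻¹ * l i ≤ M * l i := mul_le_mul_of_nonneg_right (hM2 i) (hl i).le
    rw [inv_mul_cancel₀ (hl i).ne'] at h1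
    linarith

theorem coc (h1 : SbgStmt) (h2 : FixStmt) : CocStmt := by
  intro n C Γ hC g hg s k lam q hs hk hq hP hE hray
  have hPC : PCone C := hC.toPCone
  have hH : HulFacts C Γ := hC.hul
  refine h2 n C Γ hC k hk q hP hE fun r hr => ?_
  have hWc : ∀ i, q i ∈ closure C := fun i => hP.1.cl i
  have hlp : ∀ i, 0 < lam i / s := fun i => div_pos (hq i).1 hs
  have he : ∀ i, act g (q i) = (lam i / s) • q i := by
    intro i
    have e : s⁻¹ • (s • act g (q i)) = s⁻¹ • (lam i • q i) := by rw [(hq i).2.2]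
    rw [smul_smul, inv_mul_cancel₀ hs.ne', one_smul, smul_smul] at e
    rw [e]
    congr 1
    field_simp
  obtain ⟨M, hM⟩ := eig_bd hPC g q (fun i => lam i / s) hWc hlp he
  obtain ⟨el1, -, -, el4, -⟩ := Pool.Agent.PFS.H60.elm n C Γ hC (Fin (k + 1)) q hP
  obtain ⟨φ, γ, t, p, hφ, hγ, hcom, ht, hp, hlim⟩ := h1 n C Γ hC g hg
    (fun m => ∑ i, r m i • q i) M
    (fun m => hP.1.pos (r m) (hr m)) (fun m => el4 (r m) (hr m))
    (fun m => (hM (r m) (hr m)).1) (fun m => (hM (r m) (hr m)).2)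
  have hy : ∀ m, IsPES C Γ (fun i => t m • act (γ m) (r (φ m) i • q i)) := by
    intro m
    have q1 := el1 (r (φ m)) (hr (φ m))
    exact (Pool.Agent.PFS.H60.elm n C Γ hC (Fin (k + 1)) _ q1).2.1 (γ m) (hγ m) (t m) (ht m)
  have hsum : Tendsto (fun m => ∑ i, t m • act (γ m) (r (φ m) i • q i)) atTop (𝓝 p) := by
    refine hlim.congr fun m => ?_
    rw [CC.act_sum, Finset.smul_sum]
  obtain ⟨φ', v, hφ', hv, -, hvP⟩ := Pool.Agent.PFS.H37.lpsF n C Γ hC (Fin (k + 1))
    (by rw [Fintype.card_fin]; omega)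
    (fun m i => t m • act (γ m) (r (φ m) i • q i)) p hy hp hsum
  refine ⟨φ ∘ φ', γ ∘ φ', t ∘ φ', v, hφ.comp hφ', fun m => hγ _, fun m => ht _, hvP,
    fun i => hv i, fun m i => ?_⟩
  have hEg : Eg C Γ g s (lam i) (act (γ (φ' m)) (q i)) := by
    refine ⟨hH.lamAct _ (hP.2 i) _ (hγ _), ?_⟩
    have e1 : act g (act (γ (φ' m)) (q i)) = act (γ (φ' m)) (act g (q i)) := by
      rw [← CC.act_mul, ← CC.act_mul, hcom]
    rw [e1, ← CC.act_smul, (hq i).2.2, CC.act_smul]
  obtain ⟨c, -, hc⟩ := hray i _ hEg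
  exact ⟨c, hc⟩

end Pool.Agent.VMX.H38
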